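import Pool.Agent.helper34.FJ2.Main

set_option autoImplicit false

/-!
# Definitions for the Farrell-Jones project on two-dimensional Artin groups
-/

namespace Pool.Agent.helper34.FJ3

open Pool.Agent.helper34.FJ2
open scoped BigOperators

/-- `V` is virtually cyclic: it contains a cyclic subgroup of finite index -/
def VCyc {Q : Type} [Group Q] (V : Subgroup Q) : Prop :=
  ∃ x ∈ V, (Subgroup.zpowers x).relIndex V ≠ 0

/-- closure properties of a class of groups -/
structure Closed (P : ∀ (G : Type) [Group G], Prop) : Prop where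
  /-- groups acting properly and cocompactly on 2-dimensional CAT(0) complexes -/
  cat : ∀ (G V : Type) [Group G] [MulAction G V] (X : Complex2 V) (len : V → V → ℝ),
    SimplyConnected X → NPC X len → ActsProperly G X len → Cocompact G X → P G
  /-- directed colimits -/
  colim : ∀ (ι : Type) [Preorder ι] [Nonempty ι] [IsDirectedOrder ι]
    (G : ι → Type) [∀ i, Group (G i)] (f : ∀ i j, i ≤ j → G i →* G j)
    (L : Type) [Group L] (φ : ∀ i, G i →* L),
    (∀ i x, f i i le_rfl x = x) →
    (∀ i j k (hij : i ≤ j) (hjk : j ≤ k) x, f j k hjk (f i j hij x) = f i k (hij.trans hjk) x) →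
    (∀ i j (h : i ≤ j) x, φ j (f i j h x) = φ i x) →
    (∀ y : L, ∃ i x, φ i x = y) →
    (∀ i x, φ i x = 1 → ∃ j, ∃ h : i ≤ j, f i j h x = 1) →
    (∀ i, P (G i)) → P L
  /-- subgroups -/
  sub : ∀ (G : Type) [Group G] (H : Subgroup G), P G → P H
  /-- overgroups of finite index -/
  finIndex : ∀ (G : Type) [Group G] (H : Subgroup G), H.index ≠ 0 → P H → P G
  /-- products of two groups -/
  prod : ∀ (G H : Type) [Group G] [Group H], P G → P H → P (G × H)
  /-- the extension property -/
  ext : ∀ (G Q : Type) [Group G] [Group Q] (ψ : G →* Q),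
    (∀ V : Subgroup Q, VCyc V → P (V.comap ψ)) → P Q → P G

theorem Closed.closed2 {P : ∀ (G : Type) [Group G], Prop} (hP : Closed P) : Closed2 P :=
  ⟨hP.cat, hP.colim⟩

/-- a type function: adjacent vertices have different types, and for every edge one of the two
end points is the only neighbour of its type of the other end point -/
structure Typed {V K : Type} (X : Complex2 V) (τ : V → K) : Prop where
  ne : ∀ a b, X.edge a b → τ a ≠ τ b
  uniq : ∀ a b, X.edge a b →
    (∀ c, X.edge a c → τ c = τ b → c = b) ∨ (∀ c, X.edge b c → τ c = τ a → c = a)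

/-- the group acts by automorphisms of the complex which preserve the lengths and the types -/
structure Acts (G : Type) {V K : Type} [Group G] [MulAction G V] (X : Complex2 V)
    (len : V → V → ℝ) (τ : V → K) : Prop where
  edge : ∀ (g : G) (a b : V), X.edge a b → X.edge (g • a) (g • b)
  tri : ∀ (g : G) (a b c : V), X.tri a b c → X.tri (g • a) (g • b) (g • c)
  len : ∀ (g : G) (a b : V), X.edge a b → len (g • a) (g • b) = len a b
  typ : ∀ (g : G) (a : V), τ (g • a) = τ a

theorem Acts.inv {G V K : Type} [Group G] [MulAction G V] {X : Complex2 V}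
    {len : V → V → ℝ} {τ : V → K} (h : Acts G X len τ) : Inv G X := ⟨h.edge, h.tri⟩

/-! ## Quotients -/

/-- the orbit space -/
abbrev Quo (N V : Type) [Group N] [MulAction N V] : Type := MulAction.orbitRel.Quotient N V

/-- the orbit of a vertex -/
def qmk (N : Type) {V : Type} [Group N] [MulAction N V] (v : V) : Quo N V :=
  Quotient.mk (MulAction.orbitRel N V) v

/-- the quotient complex -/
def quo (N : Type) {V : Type} [Group N] [MulAction N V] (X : Complex2 V) :
    Complex2 (Quo N V) where
  edge x y := x ≠ y ∧ ∃ a b, X.edge a b ∧ qmk N a = x ∧ qmk N b = y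
  tri x y z := (x ≠ y ∧ y ≠ z ∧ x ≠ z) ∧
    ∃ a b c, X.tri a b c ∧ qmk N a = x ∧ qmk N b = y ∧ qmk N c = z
  edge_symm := by
    rintro x y ⟨h, a, b, h1, h2, h3⟩
    exact ⟨h.symm, b, a, X.edge_symm _ _ h1, h3, h2⟩
  edge_irrefl := fun x h => h.1 rfl
  tri_rot := by
    rintro x y z ⟨⟨h1, h2, h3⟩, a, b, c, h, ha, hb, hc⟩
    exact ⟨⟨h2, h3.symm, h1.symm⟩, b, c, a, X.tri_rot _ _ _ h, hb, hc, ha⟩
  tri_swap := by
    rintro x y z ⟨⟨h1, h2, h3⟩, a, b, c, h, ha, hb, hc⟩
    exact ⟨⟨h1.symm, h3, h2⟩, b, a, c, X.tri_swap _ _ _ h, hb, ha, hc⟩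
  tri_edge := by
    rintro x y z ⟨⟨h1, h2, h3⟩, a, b, c, h, ha, hb, hc⟩
    exact ⟨h1, a, b, X.tri_edge _ _ _ h, ha, hb⟩

open Classical in
/-- the lengths of the edges of the quotient complex -/
noncomputable def quoLen (N : Type) {V : Type} [Group N] [MulAction N V] (X : Complex2 V)
    (len : V → V → ℝ) (x y : Quo N V) : ℝ :=
  if h : ∃ r, ∃ a b, X.edge a b ∧ qmk N a = x ∧ qmk N b = y ∧ len a b = r then h.choose else 0

/-- `N` acts with large rotation angles: for every edge the stabilisers of the two end points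
intersect trivially or are equal, and whenever `z ≠ 1` fixes a vertex `a` then every edge path
of the link of `a` which leads from a neighbour `c` to `z • c`, through vertices whose
stabilisers intersect the stabiliser of `a` trivially, has total angle at least `2π` -/
structure Rot (N : Type) {V : Type} [Group N] [MulAction N V] (X : Complex2 V)
    (len : V → V → ℝ) : Prop where
  mark : ∀ a b, X.edge a b → (∀ g : N, g • a = a → g • b = b → g = 1) ∨
    (∀ g : N, g • a = a ↔ g • b = b)
  rot : ∀ (a : V) (z : N) (k : ℕ) (c : ℕ → V), z • a = a → z ≠ 1 →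
    (∀ i, i < k → X.tri a (c i) (c (i + 1))) →
    (∀ i, i ≤ k → X.edge a (c i) ∧ ∀ g : N, g • a = a → g • c i = c i → g = 1) →
    c k = z • c 0 → 2 * Real.pi ≤ ∑ i ∈ Finset.range k, corner len a (c i) (c (i + 1))

/-- every non-empty finite set of triangles contains a vertex at which all simple paths of its
link have total angle less than `π` -/
def Geo {V : Type} (Y : Complex2 V) (len : V → V → ℝ) : Prop :=
  ∀ T : V → V → V → Prop, (∀ a b c, T a b c → Y.tri a b c) → (∀ a b c, T a b c → T b c a) →
    (∀ a b c, T a b c → T b a c) → {a | ∃ b c, T a b c}.Finite → (∃ a b c, T a b c) →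
    ∃ p, (∃ b c, T p b c) ∧ ∀ (n : ℕ) (c : ℕ → V),
      (∀ i j, i ≤ n → j ≤ n → c i = c j → i = j) → (∀ i, i < n → T p (c i) (c (i + 1))) →
      ∑ i ∈ Finset.range n, corner len p (c i) (c (i + 1)) < Real.pi

end Pool.Agent.helper34.FJ3
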