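import Pool.Agent.helper34.FJ3.Defs

set_option autoImplicit false

/-!
# Definitions for part B: the geometry of 2-complexes of non-positive curvature
-/

namespace Pool.Agent.helper34.FJ3

open Pool.Agent.helper34.FJ2
open scoped BigOperators

/-! ## metric graphs of girth at least `2π` -/

/-- a graph whose edges have lengths in a finite subset of `(0, π)`, simple closed paths have
length at least `2π` -/
structure MGraph (V : Type) where
  adj : V → V → Prop
  w : V → V → ℝ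
  adj_symm : ∀ a b, adj a b → adj b a
  adj_irrefl : ∀ a, ¬ adj a a
  w_symm : ∀ a b, adj a b → w a b = w b a
  w_fin : {r : ℝ | ∃ a b, adj a b ∧ w a b = r}.Finite
  w_pos : ∀ a b, adj a b → 0 < w a b
  w_lt : ∀ a b, adj a b → w a b < Real.pi
  girth : ∀ (n : ℕ) (b : ℕ → V), 3 ≤ n → b n = b 0 →
    (∀ i j, i < n → j < n → b i = b j → i = j) → (∀ i, i < n → adj (b i) (b (i + 1))) →
    2 * Real.pi ≤ ∑ i ∈ Finset.range n, w (b i) (b (i + 1))

/-- the points of the metric graph: the point at distance `s` from `b` on the edge `b c`, or the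
vertex `b` (with `c = b`, `s = 0`) -/
structure MGraph.Pt {V : Type} (Γ : MGraph V) where
  b : V
  c : V
  s : ℝ
  h : (Γ.adj b c ∧ 0 ≤ s ∧ s ≤ Γ.w b c) ∨ (b = c ∧ s = 0)

/-- a vertex -/
def MGraph.vtx {V : Type} (Γ : MGraph V) (b : V) : Γ.Pt := ⟨b, b, 0, Or.inr ⟨rfl, rfl⟩⟩

/-- two descriptions of the same point -/
def MGraph.Same {V : Type} (Γ : MGraph V) (x y : Γ.Pt) : Prop :=
  (x.b = y.b ∧ x.s = 0 ∧ y.s = 0) ∨
    (Γ.adj x.b x.c ∧ x.b = y.c ∧ x.c = y.b ∧ x.s = Γ.w x.b x.c - y.s)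

/-- the properties of the metric of the graph truncated at `π` -/
structure IsLinkMetric {V : Type} (Γ : MGraph V) (a : Γ.Pt → Γ.Pt → ℝ) : Prop where
  nonneg : ∀ x y, 0 ≤ a x y
  le_pi : ∀ x y, a x y ≤ Real.pi
  refl : ∀ x, a x x = 0
  symm : ∀ x y, a x y = a y x
  tri : ∀ x y z, a x z ≤ a x y + a y z
  same : ∀ x y, Γ.Same x y → a x y = 0
  edge : ∀ x y : Γ.Pt, x.b = y.b → x.c = y.c → a x y = |x.s - y.s|
  mid : ∀ x y, a x y < Real.pi → ∀ t : ℝ, 0 ≤ t → t ≤ 1 →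
    ∃ m, a x m = t * a x y ∧ a m y = (1 - t) * a x y ∧
      ∀ z, Real.cos (a z y) ≤ Real.cos (a z m + a m y) ∨
        Real.cos (a z x) ≤ Real.cos (a z m + a m x)
  chain : ∀ x y, a x y < Real.pi → ∃ (n : ℕ) (p : ℕ → Γ.Pt), p 0 = x ∧ p n = y ∧
    (∀ i, i < n → Γ.Same (p i) (p (i + 1)) ∨
      ((p i).b = (p (i + 1)).b ∧ (p i).c = (p (i + 1)).c)) ∧
    ∑ i ∈ Finset.range n, a (p i) (p (i + 1)) = a x y
  path : ∀ (ξ : Γ.Pt) (n : ℕ) (c : ℕ → V), (∀ i j, i ≤ n → j ≤ n → c i = c j → i = j) →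
    (∀ i, i < n → Γ.adj (c i) (c (i + 1))) →
    (∀ i, i ≤ n → a ξ (Γ.vtx (c i)) < Real.pi / 2) →
    ∑ i ∈ Finset.range n, Γ.w (c i) (c (i + 1)) ≤ a ξ (Γ.vtx (c 0)) + a ξ (Γ.vtx (c n))

/-! ## cones -/

/-- the cone metric; a point of the cone is a pair (distance from the apex, direction) -/
noncomputable def cdist {Θ : Type} (a : Θ → Θ → ℝ) (p q : ℝ × Θ) : ℝ :=
  Real.sqrt (p.1 ^ 2 + q.1 ^ 2 - 2 * p.1 * q.1 * Real.cos (a p.2 q.2))

/-- a pseudometric bounded by `π` -/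
structure AngleLike {Θ : Type} (a : Θ → Θ → ℝ) : Prop where
  nonneg : ∀ x y, 0 ≤ a x y
  le_pi : ∀ x y, a x y ≤ Real.pi
  refl : ∀ x, a x x = 0
  symm : ∀ x y, a x y = a y x
  tri : ∀ x y z, a x z ≤ a x y + a y z

theorem IsLinkMetric.angleLike {V : Type} {Γ : MGraph V} {a : Γ.Pt → Γ.Pt → ℝ}
    (h : IsLinkMetric Γ a) : AngleLike a := ⟨h.nonneg, h.le_pi, h.refl, h.symm, h.tri⟩

/-! ## local CAT(0) spaces and discrete geodesics -/

/-- locally (at scale `r0`) CAT(0), in the form of the inequality of Bruhat and Tits -/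
def LCN (M : Type) [MetricSpace M] (r0 : ℝ) : Prop :=
  0 < r0 ∧ ∀ x y : M, dist x y < r0 → ∀ t : ℝ, 0 ≤ t → t ≤ 1 → ∃ m : M,
    ∀ z, dist z x < r0 → dist z y < r0 →
      dist z m ^ 2 ≤ (1 - t) * dist z x ^ 2 + t * dist z y ^ 2 - t * (1 - t) * dist x y ^ 2

/-- a discrete geodesic with `k` steps and total length `L` -/
structure KGeo {M : Type} [MetricSpace M] (k : ℕ) (L : ℝ) (q : ℕ → M) : Prop where
  step : ∀ i, i < k → dist (q i) (q (i + 1)) = L / k
  two : ∀ i, i + 1 < k → dist (q i) (q (i + 2)) = 2 * (L / k)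
  stab : ∀ i, k ≤ i → q i = q k

/-- a family of discrete geodesics from `O` to the points `x c`, `c ∈ C`, which varies
continuously -/
structure IsSection {M : Type} [MetricSpace M] (k : ℕ) (O : M) (r1 Λ : ℝ) {E : Type}
    [NormedAddCommGroup E] [NormedSpace ℝ E] (C : Set E) (x : E → M) (s : E → ℕ → M)
    (ℓ : E → ℝ) : Prop where
  geo : ∀ c ∈ C, KGeo k (ℓ c) (s c)
  len : ∀ c ∈ C, ℓ c ≤ k * r1
  start : ∀ c ∈ C, s c 0 = O
  fin : ∀ c ∈ C, s c k = x c
  near : ∀ c ∈ C, ∀ c' ∈ C, Λ * ‖c - c'‖ ≤ r1 → ∀ i, i ≤ k → dist (s c i) (s c' i) ≤ r1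

/-! ## the realisation of a complex -/

/-- the standard triangle -/
def stdTri : Set (ℝ × ℝ) := {u | 0 ≤ u.1 ∧ 0 ≤ u.2 ∧ u.1 + u.2 ≤ 1}

/-- the realisation of the 2-complex `Y` as a complete metric space, `Γ p` is the link of `p` -/
structure Realization {V : Type} (Y : Complex2 V) (len : V → V → ℝ) (Γ : V → MGraph V) where
  M : Type
  [ms : MetricSpace M]
  [cs : CompleteSpace M]
  r0 : ℝ
  cn : LCN M r0
  /-- the vertices -/
  vert : V → M
  /-- `ep a b t` is the point `(1-t) a + t b` of the edge `a b` -/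
  ep : V → V → ℝ → M
  ep_zero : ∀ a b, Y.edge a b → ep a b 0 = vert a
  ep_symm : ∀ a b t, Y.edge a b → ep b a t = ep a b (1 - t)
  ep_dist : ∀ a b t t', Y.edge a b → 0 ≤ t → t ≤ 1 → 0 ≤ t' → t' ≤ 1 →
    |t - t'| * len a b < r0 → dist (ep a b t) (ep a b t') = |t - t'| * len a b
  /-- `tp a b c (s, t)` is the point `(1-s-t) a + s b + t c` of the triangle `a b c` -/
  tp : V → V → V → ℝ × ℝ → M
  tp_ab : ∀ a b c t, Y.tri a b c → tp a b c (t, 0) = ep a b t
  tp_ac : ∀ a b c t, Y.tri a b c → tp a b c (0, t) = ep a c t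
  tp_bc : ∀ a b c t, Y.tri a b c → tp a b c (1 - t, t) = ep b c t
  lip : ℝ
  lip_pos : 0 < lip
  ep_lip : ∀ a b t t', Y.edge a b → 0 ≤ t → t ≤ 1 → 0 ≤ t' → t' ≤ 1 →
    dist (ep a b t) (ep a b t') ≤ lip * |t - t'|
  tp_lip : ∀ a b c, Y.tri a b c → ∀ u ∈ stdTri, ∀ v ∈ stdTri,
    dist (tp a b c u) (tp a b c v) ≤ lip * ‖u - v‖
  /-- the angles at the vertices -/
  a : ∀ p, (Γ p).Pt → (Γ p).Pt → ℝ
  ha : ∀ p, IsLinkMetric (Γ p) (a p)
  /-- the direction of a point near the vertex `p` -/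
  dir : ∀ p, M → (Γ p).Pt
  cone : ∀ (p : V) (q q' : M), dist (vert p) q < r0 → dist (vert p) q' < r0 →
    dist q q' = cdist (a p) (dist (vert p) q, dir p q) (dist (vert p) q', dir p q')
  dir_ep : ∀ (p x : V) (t : ℝ), Y.edge p x → 0 < t → t ≤ 1 → t * len p x < r0 →
    a p (dir p (ep p x t)) ((Γ p).vtx x) = 0

attribute [instance] Realization.ms Realization.cs

/-! ## barycentric coordinates -/

/-- the closed simplices, as sets of vertices -/
def IsSimp {V : Type} (Y : Complex2 V) (σ : Set V) : Prop :=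
  (∃ a, σ = {a}) ∨ (∃ a b, Y.edge a b ∧ σ = {a, b}) ∨ ∃ a b c, Y.tri a b c ∧ σ = {a, b, c}

/-- the points of the realisation of `Y`, by their barycentric coordinates -/
structure YPt {V : Type} (Y : Complex2 V) where
  x : V →₀ ℝ
  nn : ∀ v, 0 ≤ x v
  sum_one : (x.sum fun _ r => r) = 1
  simp : IsSimp Y {v | x v ≠ 0}

/-- the two points lie in a common closed simplex -/
def YPt.Comm {V : Type} {Y : Complex2 V} (x y : YPt Y) : Prop :=
  ∃ σ, IsSimp Y σ ∧ {v | x.x v ≠ 0} ⊆ σ ∧ {v | y.x v ≠ 0} ⊆ σ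

/-- the `ℓ¹`-distance -/
noncomputable def YPt.l1 {V : Type} {Y : Complex2 V} (x y : YPt Y) : ℝ :=
  (x.x - y.x).sum fun _ r => |r|

open Classical in
/-- the square of the Euclidean length of the vector `∑ z_v v`, where `∑ z_v = 0` -/
noncomputable def sqd {V : Type} (len : V → V → ℝ) (z : V →₀ ℝ) : ℝ :=
  -(1 / 2) * z.sum fun a r => z.sum fun b s => if a = b then 0 else r * s * len a b ^ 2

/-- the Euclidean distance of two points of a closed simplex -/
noncomputable def YPt.eD {V : Type} {Y : Complex2 V} (len : V → V → ℝ) (x y : YPt Y) : ℝ :=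
  Real.sqrt (sqd len (x.x - y.x))

/-- the points of the union of the infinite Euclidean sectors at the vertex `v`: the vectors
`∑ x_b (b - v)`, with `x` supported on a simplex of the link -/
structure Sec {V : Type} (Y : Complex2 V) (v : V) where
  x : V →₀ ℝ
  nn : ∀ b, 0 ≤ x b
  simp : (∀ b, x b = 0) ∨ (∃ b, Y.edge v b ∧ ∀ d, x d ≠ 0 → d = b) ∨
    ∃ b c, Y.tri v b c ∧ ∀ d, x d ≠ 0 → d = b ∨ d = c

/-- the two points lie in a common sector -/
def Sec.Comm {V : Type} {Y : Complex2 V} {v : V} (X Z : Sec Y v) : Prop :=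
  (∃ b, Y.edge v b ∧ ∀ d, X.x d ≠ 0 ∨ Z.x d ≠ 0 → d = b) ∨
    (∃ b c, Y.tri v b c ∧ ∀ d, X.x d ≠ 0 ∨ Z.x d ≠ 0 → d = b ∨ d = c)

/-- the sum of the coordinates -/
noncomputable def Sec.sum {V : Type} {Y : Complex2 V} {v : V} (X : Sec Y v) : ℝ :=
  X.x.sum fun _ r => r

/-- the Euclidean distance of two points of a sector at `v` -/
noncomputable def Sec.gD {V : Type} {Y : Complex2 V} {v : V} (len : V → V → ℝ) (X Z : Sec Y v) :
    ℝ :=
  Real.sqrt (sqd len ((X.x - Z.x) - Finsupp.single v ((X.x - Z.x).sum fun _ r => r)))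

/-! ## links -/

theorem corner_lt_pi {V : Type} {X : Complex2 V} {len : V → V → ℝ} (hn : NPC X len) {a b c : V}
    (h : X.tri a b c) : corner len a b c < Real.pi := by
  have h1 := hn.pos _ _ (X.tri_edge _ _ _ h)
  have h2 := hn.pos _ _ (X.tri_edge'' h)
  have h3 := hn.pos _ _ (X.tri_edge' h)
  have h4 := hn.triangle _ _ _ (X.tri_swap _ _ _ h)
  rw [hn.symm b a] at h4
  rw [corner, ← Real.arccos_neg_one]
  apply Real.arccos_lt_arccos (le_refl _)
  · rw [lt_div_iff₀ (by positivity)]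
    nlinarith
  · rw [div_le_iff₀ (by positivity)]
    have h5 := hn.triangle _ _ _ h
    have h6 := hn.triangle _ _ _ (X.tri_swap' h)
    rw [hn.symm c b] at h6
    nlinarith [sq_nonneg (len a b - len a c)]

theorem corner_pos {V : Type} {X : Complex2 V} {len : V → V → ℝ} (hn : NPC X len) {a b c : V}
    (h : X.tri a b c) : 0 < corner len a b c := by
  have h1 := hn.pos _ _ (X.tri_edge _ _ _ h)
  have h2 := hn.pos _ _ (X.tri_edge'' h)
  have h3 := hn.pos _ _ (X.tri_edge' h)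
  have h5 := hn.triangle _ _ _ h
  have h6 := hn.triangle _ _ _ (X.tri_swap' h)
  rw [hn.symm c b] at h6
  rw [corner, Real.arccos_pos, div_lt_one (by positivity)]
  nlinarith

theorem corner_symm {V : Type} {X : Complex2 V} {len : V → V → ℝ} (hn : NPC X len) (a b c : V) :
    corner len a b c = corner len a c b := by
  rw [corner, corner, hn.symm b c, add_comm, mul_assoc, mul_assoc, mul_comm (len a b)]

/-- the link of the vertex `p` -/
noncomputable def linkG {V : Type} (Y : Complex2 V) (len : V → V → ℝ) (hn : NPC Y len)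
    (hf : {r : ℝ | ∃ a b, Y.edge a b ∧ len a b = r}.Finite) (p : V) : MGraph V where
  adj b c := Y.tri p b c
  w b c := corner len p b c
  adj_symm b c h := Y.tri_swap' h
  adj_irrefl b h := Y.edge_irrefl _ (Y.tri_edge' h)
  w_symm b c h := corner_symm hn _ _ _
  w_fin := by
    refine ((hf.prod (hf.prod hf)).image fun t =>
      Real.arccos ((t.1 ^ 2 + t.2.1 ^ 2 - t.2.2 ^ 2) / (2 * t.1 * t.2.1))).subset ?_
    rintro r ⟨b, c, h, rfl⟩
    exact ⟨(len p b, len p c, len b c), ⟨⟨_, _, Y.tri_edge _ _ _ h, rfl⟩,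
      ⟨_, _, Y.tri_edge'' h, rfl⟩, ⟨_, _, Y.tri_edge' h, rfl⟩⟩, rfl⟩
  w_pos b c h := corner_pos hn h
  w_lt b c h := corner_lt_pi hn h
  girth n b h1 h2 h3 h4 := hn.link p n b h1 h2 h3 h4

end Pool.Agent.helper34.FJ3
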