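import Pool.Agent.helper34.FJ3.Defs
import Pool.Agent.helper36.LT.ArtinDefs

set_option autoImplicit false

/-!
# Definitions for part C: Artin groups and the modified Deligne complex
-/

namespace Pool.Agent.helper34.FJ3

open Pool.Agent.helper34.FJ2
open Pool.Agent.helper36.LT (Artin gen alt artinRels)
open scoped BigOperators

variable {S : Type}

/-- the Artin group is two-dimensional (`M s t = 0` stands for the label `∞`) -/
def TwoDim (M : CoxeterMatrix S) : Prop :=
  ∀ r s t : S, r ≠ s → s ≠ t → r ≠ t → M.M r s ≠ 0 → M.M s t ≠ 0 → M.M r t ≠ 0 →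
    (1 : ℚ) / (M.M r s : ℚ) + 1 / (M.M s t : ℚ) + 1 / (M.M r t : ℚ) ≤ 1

/-- the types of the vertices of the Deligne complex: sets of at most two generators without the
label `∞` -/
def DTy (M : CoxeterMatrix S) : Type :=
  {T : Finset S // T.card ≤ 2 ∧ ∀ s ∈ T, ∀ t ∈ T, M.M s t ≠ 0}

/-- the subgroup generated by `T` -/
def sgp (M : CoxeterMatrix S) (T : Finset S) : Subgroup (Artin M) :=
  Subgroup.closure (gen M '' (T : Set S))

/-- the vertices of the Deligne complex: the cosets of the subgroups generated by the types -/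
def DV (M : CoxeterMatrix S) : Type := Σ T : DTy M, Artin M ⧸ sgp M T.1

/-- the coset `g ⟨T⟩` -/
def dv (M : CoxeterMatrix S) (T : DTy M) (g : Artin M) : DV M := ⟨T, (g : Artin M ⧸ sgp M T.1)⟩

instance (M : CoxeterMatrix S) : MulAction (Artin M) (DV M) where
  smul g v := ⟨v.1, g • v.2⟩
  one_smul v := by
    rcases v with ⟨T, x⟩
    exact congrArg (Sigma.mk T) (one_smul _ x)
  mul_smul g h v := by
    rcases v with ⟨T, x⟩
    exact congrArg (Sigma.mk T) (mul_smul g h x)

theorem smul_dv (M : CoxeterMatrix S) (T : DTy M) (g h : Artin M) :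
    g • dv M T h = dv M T (g * h) := rfl

/-- strictly comparable types -/
def DCmp {M : CoxeterMatrix S} (T T' : DTy M) : Prop := T.1 ⊂ T'.1 ∨ T'.1 ⊂ T.1

theorem DCmp.symm {M : CoxeterMatrix S} {T T' : DTy M} (h : DCmp T T') : DCmp T' T := Or.symm h

/-- the (modified) Deligne complex: simplices are the chains of nested cosets -/
def deligne (M : CoxeterMatrix S) : Complex2 (DV M) where
  edge v w := ∃ (g : Artin M) (T T' : DTy M), DCmp T T' ∧ v = dv M T g ∧ w = dv M T' g
  tri u v w := ∃ (g : Artin M) (T T' T'' : DTy M), DCmp T T' ∧ DCmp T' T'' ∧ DCmp T T'' ∧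
    u = dv M T g ∧ v = dv M T' g ∧ w = dv M T'' g
  edge_symm := by
    rintro v w ⟨b, T, T', h, h1, h2⟩
    exact ⟨b, T', T, h.symm, h2, h1⟩
  edge_irrefl := by
    rintro v ⟨b, T, T', h, h1, h2⟩
    have h3 : T = T' := congrArg Sigma.fst (h1.symm.trans h2)
    subst h3
    exact h.elim (fun h => (ssubset_irrefl _ h)) (fun h => (ssubset_irrefl _ h))
  tri_rot := by
    rintro u v w ⟨b, T, T', T'', h, h', h'', h1, h2, h3⟩
    exact ⟨b, T', T'', T, h', h''.symm, h.symm, h2, h3, h1⟩
  tri_swap := by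
    rintro u v w ⟨b, T, T', T'', h, h', h'', h1, h2, h3⟩
    exact ⟨b, T', T, T'', h.symm, h'', h', h2, h1, h3⟩
  tri_edge := by
    rintro u v w ⟨b, T, T', T'', h, h', h'', h1, h2, h3⟩
    exact ⟨b, T, T', h, h1, h2⟩

open Classical in
/-- the label of a two-element type, `0` for smaller types -/
noncomputable def lab (M : CoxeterMatrix S) (T : Finset S) : ℕ :=
  T.sup fun s => T.sup fun t => if s = t then 0 else M.M s t

/-- the angle `π / (2 m)` -/
noncomputable def dang (M : CoxeterMatrix S) (T T' : Finset S) : ℝ :=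
  Real.pi / (2 * (max (lab M T) (lab M T') : ℕ))

/-- the lengths of the edges: `1` between cosets of `1` and `⟨s⟩`, `cot α` between cosets of `⟨s⟩`
and `⟨s,t⟩`, and `1 / sin α` between cosets of `1` and `⟨s,t⟩`, where `α = π / (2 m_st)` -/
noncomputable def dlen (M : CoxeterMatrix S) (u v : DV M) : ℝ :=
  if u.1.1.card + v.1.1.card = 3 then
    Real.cos (dang M u.1.1 v.1.1) / Real.sin (dang M u.1.1 v.1.1)
  else if u.1.1.card + v.1.1.card = 2 then 1 / Real.sin (dang M u.1.1 v.1.1)
  else 1

/-- alternating products with fewer than `2 m_st` syllables are non-trivial -/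
def Girth (M : CoxeterMatrix S) : Prop :=
  ∀ s t : S, s ≠ t → M.M s t ≠ 0 → ∀ (j : ℕ) (a b : ℕ → ℤ), 0 < j → j < M.M s t →
    (∀ i, i < j → a i ≠ 0 ∧ b i ≠ 0) →
    ((List.range j).map fun i => gen M s ^ a i * gen M t ^ b i).prod ≠ 1

end Pool.Agent.helper34.FJ3
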