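import Pool.Agent.helper34.FJ3.Red
import Pool.Agent.helper84.FJ3.TreeCase
import Pool.Agent.helper26.FJ3.Quo
import Pool.Agent.helper26.FJ3.RotE
import Pool.Agent.helper60.FJ3.QuoP
import Pool.Agent.helper60.FJ3.Collapse
import Pool.Agent.helper24.FJ3.Pn
import Pool.Agent.helper20.FJ3.Leaf

set_option autoImplicit false
set_option linter.unusedVariables false

/-!
# Groups acting on 2-complexes with a homomorphism injective on the stabilisers
-/

namespace Pool.Agent.helper34.FJ3

open Pool.Agent.helper34.FJ2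
open scoped BigOperators

open Pool.Agent.helper84.FJ3 (tree_case)
open Pool.Agent.helper26.FJ3 (quoLen_eq quo_npc quo_sc exists_rot)
open Pool.Agent.helper60.FJ3 (quotient_P)

variable {P : ∀ (G : Type) [Group G], Prop}

/-- the geometric statement proved in part B -/
def GeoAll : Prop := ∀ (V : Type) (Y : Complex2 V) (len : V → V → ℝ), SimplyConnected Y →
  NPC Y len → {r : ℝ | ∃ a b, Y.edge a b ∧ len a b = r}.Finite → Geo Y len

theorem quo_fin {N V K : Type} [Group N] [MulAction N V] (X : Complex2 V) (len : V → V → ℝ)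
    (τ : V → K) (hτ : Typed X τ) (ha : Acts N X len τ)
    (hf : {r : ℝ | ∃ a b, X.edge a b ∧ len a b = r}.Finite) :
    {r : ℝ | ∃ x y, (quo N X).edge x y ∧ quoLen N X len x y = r}.Finite := by
  refine hf.subset ?_
  rintro r ⟨x, y, ⟨_, a, b, hab, rfl, rfl⟩, rfl⟩
  exact ⟨a, b, hab, (quoLen_eq X len τ hτ ha a b hab).symm⟩

theorem pn (hP : Closed P) {N V K : Type} [Group N] [MulAction N V] (X : Complex2 V)
    (len : V → V → ℝ) (τ : V → K) (hs : SimplyConnected X) (hn : NPC X len) (hτ : Typed X τ)
    (ha : Acts N X len τ) (φ : N →* Multiplicative ℤ)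
    (hφ : ∀ (v : V) (g : N), g • v = v → φ g = 1 → g = 1) (hr : Rot N X len)
    (hg : Geo (quo N X) (quoLen N X len)) : P N := by
  refine Pool.Agent.helper24.FJ3.pn_of hP ?_ ?_ ?_ X len τ hs hn hτ ha φ hφ hr hg
  · intro L V K _ _ X τ h1 h2 h3 h4 h5 φ h6
    exact tree_case hP X τ h1 h2 h3 h4 h5 φ h6
  · intro V X hs E hE h1 h2
    exact Pool.Agent.helper60.FJ3.collapse_sc X hs E hE h1 h2
  · intro N V K _ _ X len τ h1 h2 h3 h4 h5 T h6 h7 h8 h9 h10
    exact Pool.Agent.helper20.FJ3.good_leaf X len τ h1 h2 h3 h4 h5 T h6 h7 h8 h9 h10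

theorem Closed.int (hP : Closed P) : P (Multiplicative ℤ) := by
  let X : Complex2 Unit :=
    { edge := fun _ _ => False
      tri := fun _ _ _ => False
      edge_symm := fun _ _ h => h
      edge_irrefl := fun _ h => h
      tri_rot := fun _ _ _ h => h
      tri_swap := fun _ _ _ h => h
      tri_edge := fun _ _ _ h => h }
  let _ : MulAction (Multiplicative ℤ) Unit :=
    { smul := fun _ _ => (), one_smul := fun _ => rfl, mul_smul := fun _ _ _ => rfl }
  refine tree_case hP X (fun _ => ()) ⟨fun _ _ _ h => h, fun _ _ _ _ h => h⟩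
    (fun _ _ h => h.elim) (fun _ _ => rfl) ⟨⟨()⟩, fun a b => ⟨[], trivial, rfl⟩, ?_⟩
    (fun _ _ _ h => h) (MonoidHom.id _) (fun _ _ _ h => h)
  intro a l hl _
  cases l with
  | nil => exact Htpy.refl _ _
  | cons b l => exact hl.1.elim

theorem len_fin {G V K : Type} [Group G] [MulAction G V] (X : Complex2 V)
    (len : V → V → ℝ) (τ : V → K) (ha : Acts G X len τ) (hc : Cocompact G X) :
    {r : ℝ | ∃ a b, X.edge a b ∧ len a b = r}.Finite := by
  obtain ⟨F, hF, _, h2, _⟩ := hc
  refine ((hF.prod hF).image fun p => len p.1 p.2).subset ?_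
  rintro r ⟨a, b, hab, rfl⟩
  obtain ⟨g, h3, h4⟩ := h2 a b hab
  exact ⟨(g • a, g • b), ⟨h3, h4⟩, ha.len g a b hab⟩

theorem zpowers_pow_relIndex {Q : Type} [Group Q] (x : Q) (m : ℕ) (hm : 0 < m) :
    (Subgroup.zpowers (x ^ m)).relIndex (Subgroup.zpowers x) ≠ 0 := by
  let f : Multiplicative ℤ →* Q := zpowersHom Q x
  have h1 : (Subgroup.zpowers (Multiplicative.ofAdd (m : ℤ))).index ≠ 0 := by
    have h2 : (AddSubgroup.zmultiples (m : ℤ)).index ≠ 0 := by
      rw [Int.index_zmultiples]
      simpa using hm.ne'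
    exact h2
  have h2 : Subgroup.zpowers (x ^ m) = (Subgroup.zpowers (Multiplicative.ofAdd (m : ℤ))).map f := by
    rw [MonoidHom.map_zpowers]
    congr 1
    simp [f, zpowersHom_apply]
  have h3 : Subgroup.zpowers x = (⊤ : Subgroup (Multiplicative ℤ)).map f := by
    ext y
    constructor
    · rintro ⟨j, rfl⟩
      exact ⟨Multiplicative.ofAdd j, trivial, by simp [f, zpowersHom_apply]⟩
    · rintro ⟨j, _, rfl⟩
      exact ⟨Multiplicative.toAdd j, by simp [f, zpowersHom_apply]⟩
  rw [h2, h3, Subgroup.relIndex_map_map]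
  have h4 : (Subgroup.zpowers (Multiplicative.ofAdd (m : ℤ)) ⊔ f.ker).index ≠ 0 := by
    intro h5
    have h6 := Subgroup.index_dvd_of_le
      (le_sup_left : Subgroup.zpowers (Multiplicative.ofAdd (m : ℤ)) ≤ _ ⊔ f.ker)
    rw [h5] at h6
    exact h1 (Nat.eq_zero_of_zero_dvd h6)
  simpa using h4

theorem free_P (hP : Closed P) {G V K : Type} [Group G] [MulAction G V] (X : Complex2 V)
    (len : V → V → ℝ) (τ : V → K) (hs : SimplyConnected X) (hn : NPC X len)
    (ha : Acts G X len τ) (H : Subgroup G) (hf : ∀ g ∈ H, ∀ v : V, g • v = v → g = 1) : P H := by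
  refine closed_proper hP.closed2 X len hs hn ⟨fun g => ha.edge g, fun g => ha.tri g,
    fun g => ha.len g, ?_⟩
  intro v
  apply Set.Subsingleton.finite
  intro g hg h hh
  have h1 : g = 1 := Subtype.ext (hf g g.2 v hg)
  have h2 : h = 1 := Subtype.ext (hf h h.2 v hh)
  rw [h1, h2]

theorem core2 (hgeo : GeoAll) (hP : Closed P) {G V K : Type} [Group G] [MulAction G V] (X : Complex2 V)
    (len : V → V → ℝ) (τ : V → K) (hs : SimplyConnected X) (hn : NPC X len) (hτ : Typed X τ)
    (ha : Acts G X len τ) (hc : Cocompact G X) (φ : G →* Multiplicative ℤ)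
    (hφ : ∀ (v : V) (g : G), g • v = v → φ g = 1 → g = 1) : P G := by
  obtain ⟨n, hn0, hr⟩ := exists_rot X len τ hn ha hc φ hφ
  let H : Subgroup G := (Subgroup.zpowers (Multiplicative.ofAdd (n : ℤ))).comap φ
  have hH : H.index ≠ 0 := by
    have h1 : (Subgroup.zpowers (Multiplicative.ofAdd (n : ℤ))).index ≠ 0 := by
      have h2 : (AddSubgroup.zmultiples (n : ℤ)).index ≠ 0 := by
        rw [Int.index_zmultiples]
        simpa using hn0.ne'
      exact h2
    have h2 := Subgroup.relIndex_comap_ne_zero φ (J := Subgroup.zpowers (Multiplicative.ofAdd (n : ℤ)))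
      (K := ⊤) (by simpa using h1)
    simpa using h2
  refine hP.finIndex G H hH ?_
  have hr : Rot H X len := hr
  have haH : Acts H X len τ := ha.sub H
  -- the subgroup generated by the stabilisers
  let N : Subgroup H := Subgroup.closure {g : H | ∃ v : V, g • v = v}
  have hN : N = Subgroup.closure {g : H | ∃ v : V, g • v = v} := rfl
  have hst : ∀ (g : H) (v : V), g • v = v → g ∈ N := fun g v h =>
    Subgroup.subset_closure ⟨v, h⟩
  have : N.Normal := by
    apply Subgroup.Normal.mk
    intro g hg h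
    induction hg using Subgroup.closure_induction with
    | mem g hg =>
      obtain ⟨v, hv⟩ := hg
      refine hst _ (h • v) ?_
      rw [mul_smul, mul_smul, inv_smul_smul, hv]
    | one => simpa using N.one_mem
    | mul a b _ _ h1 h2 =>
      have : h * (a * b) * h⁻¹ = (h * a * h⁻¹) * (h * b * h⁻¹) := by group
      rw [this]
      exact N.mul_mem h1 h2
    | inv a _ h1 =>
      have : h * a⁻¹ * h⁻¹ = (h * a * h⁻¹)⁻¹ := by group
      rw [this]
      exact N.inv_mem h1
  have hrN : Rot N X len := by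
    refine ⟨?_, ?_⟩
    · intro a b hab
      rcases hr.mark a b hab with h1 | h1
      · exact Or.inl fun g h2 h3 => Subtype.ext (h1 g h2 h3)
      · exact Or.inr fun g => h1 g
    · intro a z k c h1 h2 h3 h4 h5
      refine hr.rot a z k c h1 (fun h6 => h2 (Subtype.ext h6)) h3 ?_ h5
      intro i hi
      refine ⟨(h4 i hi).1, ?_⟩
      intro g hg hg'
      exact congrArg Subtype.val ((h4 i hi).2 ⟨g, hst g a hg⟩ hg hg')
  have haN : Acts N X len τ := haH.sub N
  have hNt : Subgroup.closure {g : N | ∃ v : V, g • v = v} = ⊤ := by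
    rw [eq_top_iff]
    rintro ⟨g, hg⟩ -
    have key : ∀ g (hg : g ∈ N), (⟨g, hg⟩ : N) ∈
        Subgroup.closure {g : N | ∃ v : V, g • v = v} := by
      intro g hg
      induction hg using Subgroup.closure_induction with
      | mem g hg =>
        obtain ⟨v, hv⟩ := hg
        exact Subgroup.subset_closure ⟨v, hv⟩
      | one => exact one_mem _
      | mul a b h1 h2 h3 h4 => exact mul_mem h3 h4
      | inv a h1 h2 => exact inv_mem h2
    exact key g hg
  have hnY := quo_npc X len τ hn hτ haN hrN
  have hsY := quo_sc X len τ hs hτ haN hNt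
  have hfY := quo_fin X len τ hτ haN (len_fin X len τ ha hc)
  have hgY := hgeo _ _ _ hsY hnY hfY
  have hPN : P N := pn hP X len τ hs hn hτ haN (φ.comp (H.subtype.comp N.subtype))
    (fun v g h1 h2 => Subtype.ext (Subtype.ext (hφ v g h1 h2))) hrN hgY
  have hPQ : P (H ⧸ N) := quotient_P hP X len τ hs hn hτ haH N hN hrN
  -- the extension property for `H → H ⧸ N × ℤ`
  let ψ : H →* (H ⧸ N) × Multiplicative ℤ :=
    (QuotientGroup.mk' N).prod (φ.comp H.subtype)
  have hsubN : ∀ K : Subgroup H, K ≤ N → P K := by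
    intro K hK
    exact hP.equiv (Subgroup.subgroupOfEquivOfLe hK) (hP.sub N (K.subgroupOf N) hPN)
  refine hP.ext' ψ (hP.prod _ _ hPQ hP.int) ?_ ?_
  · apply hsubN
    intro g hg
    have h1 : ψ g = 1 := hg
    have h2 : QuotientGroup.mk' N g = 1 := congrArg Prod.fst h1
    exact (QuotientGroup.eq_one_iff g).1 h2
  · rintro ⟨γ, k⟩ hx
    by_cases hγ : ∃ m : ℕ, 0 < m ∧ γ ^ m = 1
    · obtain ⟨m, hm, hγm⟩ := hγ
      refine hP.relIndex ((Subgroup.zpowers ((γ, k) ^ m)).comap ψ) _
        (Subgroup.comap_mono ?_) ?_ ?_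
      · rw [Subgroup.zpowers_le]
        exact Subgroup.pow_mem _ (Subgroup.mem_zpowers _) m
      · apply Subgroup.relIndex_comap_ne_zero
        have h1 : (Subgroup.zpowers (((γ, k) : (H ⧸ N) × Multiplicative ℤ) ^ m)).relIndex
            (Subgroup.zpowers ((γ, k) : (H ⧸ N) × Multiplicative ℤ)) ≠ 0 :=
          zpowers_pow_relIndex _ m hm
        exact h1
      · apply hsubN
        rintro g ⟨j, hj⟩
        have h2 : QuotientGroup.mk' N g = 1 := by
          have h3 := congrArg Prod.fst hj
          change ((γ ^ m) ^ j) = QuotientGroup.mk' N g at h3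
          rw [← h3, hγm, one_zpow]
        exact (QuotientGroup.eq_one_iff g).1 h2
    · push Not at hγ
      refine free_P hP X len τ hs hn haH _ ?_
      rintro g ⟨j, hj⟩ v hv
      have h1 : QuotientGroup.mk' N g = 1 := (QuotientGroup.eq_one_iff g).2 (hst g v hv)
      have h2 : γ ^ j = 1 := by
        have h3 := congrArg Prod.fst hj
        change (γ ^ j) = QuotientGroup.mk' N g at h3
        rw [h3, h1]
      have h3 : j = 0 := by
        by_contra hj0
        refine hγ j.natAbs (Int.natAbs_pos.2 hj0) ?_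
        rcases Int.natAbs_eq j with h | h
        · rw [h] at h2
          simpa using h2
        · rw [h] at h2
          simpa using h2
      have h4 : φ g = 1 := by
        have h5 := congrArg Prod.snd hj
        change (k ^ j) = φ g at h5
        rw [← h5, h3, zpow_zero]
      exact Subtype.ext (hφ v g hv h4)

/-- the case of a homomorphism to `ℤ` -/
theorem P2_int (hgeo : GeoAll) (hP : Closed P) {G V K : Type} [Group G] [MulAction G V] (X : Complex2 V)
    (len : V → V → ℝ) (τ : V → K) (hs : SimplyConnected X) (hn : NPC X len) (hτ : Typed X τ)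
    (ha : Acts G X len τ) (φ : G →* Multiplicative ℤ)
    (hφ : ∀ (v : V) (g : G), g • v = v → φ g = 1 → g = 1) : P G := by
  refine red hP X ha.inv hs ?_
  intro H A x hA hfin hreach
  obtain ⟨F, hF, h1, h2⟩ := hfin
  refine core2 hgeo hP (Cov.complex A.toC x) (covLen len) (fun q => τ q.ep)
    (Cov.simplyConnected _ _) (hn.cover hA x) ((hτ.mono hA).cover x) ((ha.sub H).cover A hA x)
    (cocompact_cover A x F hF hreach h1 h2) (φ.comp (H.subtype.comp (Lifts.proj A x))) ?_
  intro v g hg hg'
  have h3 : Lifts.proj A x g • v.ep = v.ep := by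
    rw [← Lifts.ep_smul, hg]
  have h4 : Lifts.proj A x g = 1 := Subtype.ext (hφ v.ep _ h3 hg')
  exact Lifts.stab_inj v g 1 hg (one_smul _ _) (by rw [h4, map_one])

/-- **Theorem P2.** -/
theorem P2_of (hgeo : GeoAll) (hP : Closed P) {G V K : Type} [Group G] [MulAction G V] (X : Complex2 V)
    (len : V → V → ℝ) (τ : V → K) (hs : SimplyConnected X) (hn : NPC X len) (hτ : Typed X τ)
    (ha : Acts G X len τ) {Q : Type} [Group Q] (π : G →* Q) (hQ : P Q)
    (hπ : ∀ (v : V) (g : G), g • v = v → π g = 1 → g = 1) : P G := by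
  refine hP.ext' π hQ ?_ ?_
  · exact free_P hP X len τ hs hn ha _ fun g hg v hv => hπ v g hv hg
  · intro x hx
    let K := (Subgroup.zpowers x).comap π
    have hinj : Function.Injective (zpowersHom Q x) := by
      rw [injective_iff_map_eq_one]
      intro y hy
      have h1 : x ^ (Multiplicative.toAdd y) = 1 := by
        simpa [zpowersHom_apply] using hy
      have h2 : Multiplicative.toAdd y = 0 := by
        by_contra hj0
        refine hx (Multiplicative.toAdd y).natAbs (Int.natAbs_pos.2 hj0) ?_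
        rcases Int.natAbs_eq (Multiplicative.toAdd y) with h | h
        · rw [h] at h1
          simpa using h1
        · rw [h] at h1
          simpa using h1
      exact h2
    have hrange : ∀ g : K, π g ∈ (zpowersHom Q x).range := by
      intro g
      obtain ⟨j, hj⟩ : π g ∈ Subgroup.zpowers x := g.2
      exact ⟨Multiplicative.ofAdd j, by simpa [zpowersHom_apply] using hj⟩
    let e := MonoidHom.ofInjective hinj
    let φ : K →* Multiplicative ℤ :=
      e.symm.toMonoidHom.comp ((π.comp K.subtype).codRestrict (zpowersHom Q x).range hrange)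
    refine P2_int hgeo hP X len τ hs hn hτ (ha.sub K) φ ?_
    intro v g hg hg'
    have h1 : (⟨π g, hrange g⟩ : (zpowersHom Q x).range) = 1 :=
      e.symm.injective (hg'.trans (map_one _).symm)
    exact Subtype.ext (hπ v g hg (congrArg Subtype.val h1))

end Pool.Agent.helper34.FJ3
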