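import Pool.Agent.helper60.FJ3.Real
import Pool.Agent.helper37.FJ3.KGeo
import Pool.Agent.helper18.FJ3.Section
import Pool.Agent.helper28.FJ3.Energy
import Pool.Agent.helper40.FJ3.Transport
import Pool.Agent.helper77.FJ3.B7
import Pool.Agent.helper34.FJ3.PartA

/-!
# Geometry of simply connected nonpositively curved 2-complexes with finitely many shapes

Assembly: in a finite set of triangles of a simply connected NPC 2-complex with finitely many edge
lengths there is a vertex at which all simple corner paths have angle sum less than `π`.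
-/

set_option autoImplicit false
set_option linter.unusedVariables false

namespace Pool.Agent.helper34.FJ3

open Pool.Agent.helper34.FJ2
open scoped BigOperators

theorem exSec : Pool.Agent.helper40.FJ3.ExSec := by
  intro M _ _ r0 k h hk E _ _ C hC c0 hc0 x Λ hΛ hx B hB L q hq hqx hL
  exact Pool.Agent.helper18.FJ3.exists_section_of h
    (fun L L' q q' hq hq' => Pool.Agent.helper37.FJ3.kgeo_conv h hk hq hq')
    (fun L q hq x' => Pool.Agent.helper37.FJ3.kgeo_move h hk hq x')
    hk C hC c0 hc0 x Λ hΛ hx B hB hq hqx hL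

theorem secUniq : Pool.Agent.helper40.FJ3.SecUniq := by
  intro M _ r0 k h hk E _ _ C hC c0 hc0 x Λ hΛ O s s' ℓ ℓ' hs hs' h0
  exact Pool.Agent.helper18.FJ3.section_unique_of h
    (fun L L' q q' hq hq' => Pool.Agent.helper37.FJ3.kgeo_conv h hk hq hq')
    hk C hC c0 hc0 x Λ hΛ O s s' ℓ ℓ' hs hs' h0

theorem geoAll : GeoAll := by
  intro V Y len hs hn hf T hT h1 h2 hfin hne
  obtain ⟨R⟩ := Pool.Agent.helper60.FJ3.exists_realization Y len hs hn hf
  obtain ⟨O⟩ := hs.1
  obtain ⟨k, q, L, hk, hq, hsec⟩ := Pool.Agent.helper40.FJ3.exists_transport_of exSec secUniq R hs O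
    {a | ∃ b c, T a b c} hfin
  have hne' : {a | ∃ b c, T a b c}.Nonempty := by
    obtain ⟨a, b, c, h⟩ := hne
    exact ⟨a, b, c, h⟩
  obtain ⟨p, hp, hmax⟩ := Set.exists_max_image _ L hfin hne'
  refine ⟨p, hp, ?_⟩
  intro n c hinj hc
  rcases Nat.eq_zero_or_pos n with rfl | hn0
  · simpa using Real.pi_pos
  have hnb : ∀ i, i ≤ n → ∃ y, T p (c i) y := by
    intro i hi
    rcases Nat.lt_or_ge i n with h | h
    · exact ⟨_, hc i h⟩
    · have : i = n := le_antisymm hi h
      subst this
      refine ⟨c (i - 1), ?_⟩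
      have h3 := hc (i - 1) (by omega)
      have h4 : i - 1 + 1 = i := by omega
      rw [h4] at h3
      exact h1 _ _ _ (h2 _ _ _ h3)
  have key : ∀ i, i ≤ n → R.a p (R.dir p (q p (k - 1))) ((linkG Y len hn hf p).vtx (c i)) <
      Real.pi / 2 := by
    intro i hi
    obtain ⟨y, hy⟩ := hnb i hi
    have hedge : Y.edge p (c i) := Y.tri_edge _ _ _ (hT _ _ _ hy)
    have hx : c i ∈ {a | ∃ b c, T a b c} := ⟨p, y, h2 _ _ _ hy⟩
    obtain ⟨s, ℓ, hsl, hs0, hs1, hl0, hl1⟩ := hsec p hp (c i) hx hedge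
    by_contra hcon
    push Not at hcon
    have h3 := Pool.Agent.helper77.FJ3.first_variation_of R hn.pos O p (c i) hedge k hk
      (fun hq hq' => Pool.Agent.helper37.FJ3.kgeo_conv R.cn hk hq hq')
      (fun hq => Pool.Agent.helper28.FJ3.kgeo_energy R.cn hk hq)
      (fun hq hq' hq'' => Pool.Agent.helper28.FJ3.kgeo_strict R.cn hk hq hq' hq'')
      s ℓ hsl (Or.inr (by rw [hs0]; exact hcon))
    rw [hl0, hl1] at h3
    exact absurd (hmax (c i) hx) (not_le.2 h3)
  have h5 := (R.ha p).path (R.dir p (q p (k - 1))) n c hinj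
    (fun i hi => hT _ _ _ (hc i hi)) key
  have h6 := key 0 (by omega)
  have h7 := key n le_rfl
  change ∑ i ∈ Finset.range n, corner len p (c i) (c (i + 1)) ≤ _ at h5
  linarith

/-- **Theorem P2** for a class of groups with the closure properties. -/
theorem P2 {P : ∀ (G : Type) [Group G], Prop} (hP : Closed P) {G V K : Type} [Group G]
    [MulAction G V] (X : Complex2 V)
    (len : V → V → ℝ) (τ : V → K) (hs : SimplyConnected X) (hn : NPC X len) (hτ : Typed X τ)
    (ha : Acts G X len τ) {Q : Type} [Group Q] (π : G →* Q) (hQ : P Q)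
    (hπ : ∀ (v : V) (g : G), g • v = v → π g = 1 → g = 1) : P G :=
  P2_of geoAll hP X len τ hs hn hτ ha π hQ hπ

end Pool.Agent.helper34.FJ3
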