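import Pool.Agent.helper34.FJ3.PartB
import Pool.Agent.helper34.FJ3.DefsC
import Pool.Agent.helper24.FJ3.MatGirth
import Pool.Agent.helper55.FJ3.C2a
import Pool.Agent.helper71.FJ3.Deligne
import Pool.Agent.helper46.FJ3.Colim
import Pool.Agent.helper74.FJ3.C3
import Pool.Agent.helper74.FJ3.C3g

/-!
# Two-dimensional Artin groups
-/

set_option autoImplicit false
set_option linter.unusedVariables false

namespace Pool.Agent.helper34.FJ3

open Pool.Agent.helper34.FJ2
open Pool.Agent.helper36.LT (Artin gen alt artinRels)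

theorem artin_girth {S : Type} [Finite S] (M : CoxeterMatrix S) : Girth M :=
  Pool.Agent.helper74.FJ3.artin_girth_of (fun m hm j a b hj hjm hab hsum =>
    Pool.Agent.helper24.FJ3.mat_girth m hm j a b hj hjm hab hsum) M

theorem artin_fin {P : ∀ (G : Type) [Group G], Prop} (hP : Closed P)
    (hgl : ∀ n : ℕ, P (Matrix.GeneralLinearGroup (Fin n) ℚ)) (S : Type) [Finite S]
    (M : CoxeterMatrix S) (hM : TwoDim M) : P (Artin M) := by
  obtain ⟨n, ρ, hρ⟩ := Pool.Agent.helper74.FJ3.artin_rep2 M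
  refine P2 hP (deligne M) (dlen M) (fun v => v.1) (Pool.Agent.helper55.FJ3.deligne_sc M)
    (Pool.Agent.helper71.FJ3.deligne_npc M hM (artin_girth M))
    (Pool.Agent.helper71.FJ3.deligne_typed M) (Pool.Agent.helper71.FJ3.deligne_acts M) ρ (hgl n) ?_
  rintro ⟨T, x⟩ g hg hg1
  induction x using QuotientGroup.induction_on with
  | H h =>
    have h1 : ((g * h : Artin M) : Artin M ⧸ sgp M T.1) = (h : Artin M ⧸ sgp M T.1) := by
      have h2 : (⟨T, ((g * h : Artin M) : Artin M ⧸ sgp M T.1)⟩ : DV M) =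
        ⟨T, (h : Artin M ⧸ sgp M T.1)⟩ := hg
      exact eq_of_heq (Sigma.mk.inj_iff.1 h2).2
    have h3 : h⁻¹ * (g * h) ∈ sgp M T.1 := QuotientGroup.eq.1 h1.symm
    have h4 := hρ T _ h3 (by rw [map_mul, map_mul, hg1, one_mul, map_inv, inv_mul_cancel])
    have h5 : g = h * (h⁻¹ * (g * h)) * h⁻¹ := by group
    rw [h5, h4]
    group

/-- **Two-dimensional Artin groups** belong to every class with the closure properties. -/
theorem artin_P {P : ∀ (G : Type) [Group G], Prop} (hP : Closed P)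
    (hgl : ∀ n : ℕ, P (Matrix.GeneralLinearGroup (Fin n) ℚ)) (S : Type)
    (M : CoxeterMatrix S) (hM : TwoDim M) : P (Artin M) :=
  Pool.Agent.helper46.FJ3.artin_colim hP (fun S _ M hM => artin_fin hP hgl S M hM) S M hM

end Pool.Agent.helper34.FJ3
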