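import Pool.Agent.helper34.FJ3.Defs

set_option autoImplicit false
set_option linter.unusedVariables false

/-!
# Reduction to cocompact actions
-/

namespace Pool.Agent.helper34.FJ3

open Pool.Agent.helper34.FJ2
open scoped BigOperators

variable {P : ∀ (G : Type) [Group G], Prop}

theorem Closed.equiv (hP : Closed P) {G H : Type} [Group G] [Group H] (e : G ≃* H) (h : P G) :
    P H := by
  refine hP.colim Unit (fun _ => G) (fun _ _ _ => MonoidHom.id G) H (fun _ => e.toMonoidHom)
    (fun _ _ => rfl) (fun _ _ _ _ _ _ => rfl) (fun _ _ _ _ => rfl)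
    (fun y => ⟨(), e.symm y, e.apply_symm_apply y⟩) ?_ (fun _ => h)
  intro i x hx
  refine ⟨(), trivial, ?_⟩
  exact e.injective (by simpa using hx)

theorem Closed.inj (hP : Closed P) {G H : Type} [Group G] [Group H] (f : G →* H)
    (hf : Function.Injective f) (h : P H) : P G :=
  hP.equiv (MonoidHom.ofInjective hf).symm (hP.sub H f.range h)

/-- finite index preimages -/
theorem Closed.relIndex (hP : Closed P) {G : Type} [Group G] (H K : Subgroup G) (hHK : H ≤ K)
    (hi : H.relIndex K ≠ 0) (h : P H) : P K := by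
  refine hP.finIndex K (H.subgroupOf K) hi ?_
  exact hP.equiv (Subgroup.subgroupOfEquivOfLe hHK).symm h

/-- the extension property for trivial and infinite cyclic subgroups -/
theorem Closed.ext' (hP : Closed P) {G Q : Type} [Group G] [Group Q] (ψ : G →* Q) (hQ : P Q)
    (h0 : P ψ.ker)
    (h1 : ∀ x : Q, (∀ n : ℕ, 0 < n → x ^ n ≠ 1) → P ((Subgroup.zpowers x).comap ψ)) : P G := by
  refine hP.ext G Q ψ ?_ hQ
  rintro V ⟨x, hx, hi⟩
  have hle : Subgroup.zpowers x ≤ V := by simpa using hx
  have key : ∀ C : Subgroup Q, C ≤ V → C.relIndex V ≠ 0 → P (C.comap ψ) → P (V.comap ψ) := by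
    intro C hC hi hPC
    exact hP.relIndex (C.comap ψ) (V.comap ψ) (Subgroup.comap_mono hC)
      (Subgroup.relIndex_comap_ne_zero ψ hi) hPC
  by_cases hfin : ∃ n : ℕ, 0 < n ∧ x ^ n = 1
  · obtain ⟨n, hn, hxn⟩ := hfin
    refine key ⊥ bot_le ?_ ?_
    · have h2 : (⊥ : Subgroup Q).relIndex (Subgroup.zpowers x) ≠ 0 := by
        rw [Subgroup.relIndex_bot_left]
        have : Finite (Subgroup.zpowers x) :=
          (finite_zpowers.2 (isOfFinOrder_iff_pow_eq_one.2 ⟨n, hn, hxn⟩)).to_subtype
        exact Nat.card_pos.ne'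
      have h3 := Subgroup.relIndex_mul_relIndex (⊥ : Subgroup Q) (Subgroup.zpowers x) V bot_le hle
      rw [← h3]
      exact mul_ne_zero h2 hi
    · exact hP.equiv (MulEquiv.subgroupCongr rfl) h0
  · push Not at hfin
    exact key _ hle hi (h1 x hfin)

theorem red {P : ∀ (G : Type) [Group G], Prop} (hP : Closed P) {G V : Type} [Group G]
    [MulAction G V] (X : Complex2 V) (hX : Inv G X) (hs : SimplyConnected X)
    (h : ∀ (H : Subgroup G) (A : GCx H V) (x : V), A.toC ≤ X → FinOrb A →
      (∀ g : H, ∃ l, IsPath A.toC x l ∧ endp x l = g • x) → P (Lifts A x)) : P G := by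
  classical
  refine hP.colim (Finset G) (fun S => Subgroup.closure (S : Set G))
    (fun S T h => Subgroup.inclusion (Subgroup.closure_mono (Finset.coe_subset.2 h))) G
    (fun S => (Subgroup.closure (S : Set G)).subtype) ?_ ?_ ?_ ?_ ?_ ?_
  · intro S x
    rfl
  · intro S T U h1 h2 x
    rfl
  · intro S T h x
    rfl
  · intro g
    exact ⟨{g}, ⟨g, Subgroup.subset_closure (by simp)⟩, rfl⟩
  · intro S x hx
    refine ⟨S, le_rfl, ?_⟩
    have : x = 1 := Subtype.ext hx
    rw [this, map_one]
  · intro S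
    let H : Subgroup G := Subgroup.closure (S : Set G)
    have : Group.FG H := by
      rw [Group.fg_iff_subgroup_fg]
      exact ⟨S, rfl⟩
    have hXH : Inv H X := ⟨fun g => hX.edge g, fun g => hX.tri g⟩
    change P H
    obtain ⟨x⟩ := hs.1
    have := exists_idx (G := H) X hXH hs x
    refine hP.colim (Idx H X x) (fun i => Lifts i.A x) (fun i j h => trans h x) H
      (fun i => Lifts.proj i.A x) ?_ ?_ ?_ ?_ ?_ ?_
    · intro i y
      induction y using Lifts.ind with
      | h p => rfl
    · intro i j k hij hjk y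
      induction y using Lifts.ind with
      | h p => rfl
    · intro i j hij y
      induction y using Lifts.ind with
      | h p => rfl
    · intro g
      obtain ⟨i⟩ := this
      obtain ⟨l, hl, hl'⟩ := i.reach g
      exact ⟨i, Lifts.mk ⟨g, l, hl, hl'⟩, rfl⟩
    · intro i y hy
      induction y using Lifts.ind with
      | h p =>
        have hg : p.g = 1 := hy
        have h1 : endp x p.l = x := by rw [p.fin, hg, one_smul]
        have h2 := hs.2.2 x p.l (p.path.mono i.le) h1
        obtain ⟨E, T, hE, hT, h3⟩ := h2.finite_support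
        refine ⟨i.add (gen X hXH E T) (gen_le _ _ _ _) (finOrb_gen _ _ _ _),
          GCx.le_sup_left _ _, ?_⟩
        refine Lifts.mk_eq.2 ⟨hg, h3 _ ?_ ?_⟩
        · intro e he
          exact Or.inr ⟨hE e he, Or.inl ⟨1, e, he, by simp⟩⟩
        · intro t ht
          exact Or.inr ⟨hT t ht, 1, t, ht, by simp⟩
    · intro i
      exact h H i.A x i.le i.fin i.reach

section

variable {V K G : Type} [Group G] [MulAction G V]

theorem Typed.mono {A X : Complex2 V} {τ : V → K} (h : Typed X τ) (hA : A ≤ X) : Typed A τ where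
  ne a b hab := h.ne a b (hA.1 _ _ hab)
  uniq a b hab := (h.uniq a b (hA.1 _ _ hab)).imp
    (fun h1 c hc => h1 c (hA.1 _ _ hc)) (fun h1 c hc => h1 c (hA.1 _ _ hc))

theorem Typed.cover {A : Complex2 V} {τ : V → K} (h : Typed A τ) (x : V) :
    Typed (Cov.complex A x) (fun q => τ q.ep) where
  ne a b hab := h.ne _ _ hab.1
  uniq a b hab := (h.uniq _ _ hab.1).imp
    (fun h1 c hc hc' => Cov.ext_ep hc hab (h1 _ hc.1 hc'))
    (fun h1 c hc hc' => Cov.ext_ep hc ((Cov.complex A x).edge_symm _ _ hab) (h1 _ hc.1 hc'))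

theorem Acts.sub {X : Complex2 V} {len : V → V → ℝ} {τ : V → K} (h : Acts G X len τ)
    (H : Subgroup G) : Acts H X len τ where
  edge g := h.edge g
  tri g := h.tri g
  len g := h.len g
  typ g := h.typ g

theorem Acts.cover {X : Complex2 V} {len : V → V → ℝ} {τ : V → K} (h : Acts G X len τ)
    (A : GCx G V) (hA : A.toC ≤ X) (x : V) :
    Acts (Lifts A x) (Cov.complex A.toC x) (covLen len) (fun q => τ q.ep) where
  edge := Lifts.inv_cover.edge
  tri := Lifts.inv_cover.tri
  len g a b hab := by
    change len (g • a).ep (g • b).ep = len a.ep b.ep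
    rw [Lifts.ep_smul, Lifts.ep_smul]
    exact h.len _ _ _ (hA.1 _ _ hab.1)
  typ g a := by
    rw [Lifts.ep_smul]
    exact h.typ _ _

end

end Pool.Agent.helper34.FJ3
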