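import Pool.Agent.helper34.FJ3.DefsB

set_option autoImplicit false

/-!
# The barycentric subdivision of a 2-complex
-/

namespace Pool.Agent.helper34.FJ3

open Pool.Agent.helper34.FJ2
open scoped BigOperators

variable {V : Type}

/-- the simplices of `X`, as sets of vertices -/
def Simp (X : Complex2 V) : Type := {s : Set V // IsSimp X s}

/-- the simplices are different and one contains the other -/
def SCmp {X : Complex2 V} (s t : Simp X) : Prop := s.1 ⊂ t.1 ∨ t.1 ⊂ s.1

theorem SCmp.symm {X : Complex2 V} {s t : Simp X} (h : SCmp s t) : SCmp t s := Or.symm h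

/-- the barycentric subdivision -/
def sd (X : Complex2 V) : Complex2 (Simp X) where
  edge := SCmp
  tri r s t := SCmp r s ∧ SCmp s t ∧ SCmp r t
  edge_symm _ _ h := h.symm
  edge_irrefl s h := h.elim (ssubset_irrefl s.1) (ssubset_irrefl s.1)
  tri_rot := fun r s t ⟨h1, h2, h3⟩ => ⟨h2, h3.symm, h1.symm⟩
  tri_swap := fun r s t ⟨h1, h2, h3⟩ => ⟨h1.symm, h3, h2⟩
  tri_edge := fun r s t h => h.1

open Classical in
/-- the barycentre of a finite set of vertices -/
noncomputable def bar (s : Set V) : V →₀ ℝ :=
  if h : s.Finite then Finsupp.indicator h.toFinset fun _ _ => 1 / (s.ncard : ℝ) else 0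

/-- the lengths of the edges of the barycentric subdivision: the Euclidean distances of the
barycentres of the simplices -/
noncomputable def sdLen {X : Complex2 V} (len : V → V → ℝ) (s t : Simp X) : ℝ :=
  Real.sqrt (sqd len (bar s.1 - bar t.1))

end Pool.Agent.helper34.FJ3
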