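import Pool.Agent.helper34.FJ3.PartB

/-!
# Theorem P2 with a homomorphism for each vertex
-/

set_option autoImplicit false
set_option linter.unusedVariables false

namespace Pool.Agent.helper34.FJ3

open Pool.Agent.helper34.FJ2
open scoped BigOperators

variable {P : ∀ (G : Type) [Group G], Prop}

theorem Closed.trivial (hP : Closed P) : P Unit := by
  refine hP.inj (1 : Unit →* Multiplicative ℤ) ?_ hP.int
  intro a b _
  rfl

/-- finitely many homomorphisms can be combined -/
theorem combine (hP : Closed P) {G V : Type} [Group G] [MulAction G V]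
    (hπ : ∀ v : V, ∃ (Q : Type) (_ : Group Q) (π : G →* Q), P Q ∧
      ∀ g : G, g • v = v → π g = 1 → g = 1) (F : Set V) (hF : F.Finite) :
    ∃ (Q : Type) (_ : Group Q) (π : G →* Q), P Q ∧
      ∀ v ∈ F, ∀ g : G, g • v = v → π g = 1 → g = 1 := by
  induction F, hF using Set.Finite.induction_on with
  | empty => exact ⟨Unit, inferInstance, 1, hP.trivial, fun v hv => hv.elim⟩
  | @insert a s _ _ ih =>
    obtain ⟨Q, _, π, hQ, h⟩ := ih
    obtain ⟨Q', _, π', hQ', h'⟩ := hπ a
    refine ⟨Q' × Q, inferInstance, π'.prod π, hP.prod _ _ hQ' hQ, ?_⟩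
    rintro v (rfl | hv) g hg hg'
    · exact h' g hg (congrArg Prod.fst hg')
    · exact h v hv g hg (congrArg Prod.snd hg')

/-- **Theorem P2**, with a homomorphism for each vertex -/
theorem P2v (hP : Closed P) {G V K : Type} [Group G] [MulAction G V] (X : Complex2 V)
    (len : V → V → ℝ) (τ : V → K) (hs : SimplyConnected X) (hn : NPC X len) (hτ : Typed X τ)
    (ha : Acts G X len τ)
    (hπ : ∀ v : V, ∃ (Q : Type) (_ : Group Q) (π : G →* Q), P Q ∧
      ∀ g : G, g • v = v → π g = 1 → g = 1) : P G := by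
  refine red hP X ha.inv hs ?_
  intro H A x hA hfin hreach
  obtain ⟨F, hF, h1, h2⟩ := hfin
  obtain ⟨F', hF', hv, -⟩ := cocompact_cover A x F hF hreach h1 h2
  obtain ⟨Q, _, π, hQ, hπ'⟩ := combine (V := Cov A.toC x) (G := Lifts A x) hP (by
    intro v
    obtain ⟨Q, _, π, hQ, h⟩ := hπ v.ep
    refine ⟨Q, inferInstance, π.comp (H.subtype.comp (Lifts.proj A x)), hQ, ?_⟩
    intro g hg hg'
    have h3 : Lifts.proj A x g • v.ep = v.ep := by
      rw [← Lifts.ep_smul, hg]
    have h4 : Lifts.proj A x g = 1 := Subtype.ext (h _ h3 hg')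
    exact Lifts.stab_inj v g 1 hg (one_smul _ _) (by rw [h4, map_one])) F' hF'
  refine P2 hP (Cov.complex A.toC x) (covLen len) (fun q => τ q.ep)
    (Cov.simplyConnected _ _) (hn.cover hA x) ((hτ.mono hA).cover x) ((ha.sub H).cover A hA x)
    π hQ ?_
  intro v g hg hg'
  obtain ⟨a, ha⟩ := hv v
  have h5 : (a * g * a⁻¹) • (a • v) = a • v := by
    rw [mul_smul, mul_smul, inv_smul_smul, hg]
  have h6 := hπ' _ ha (a * g * a⁻¹) h5 (by rw [map_mul, map_mul, hg', mul_one, map_inv,
    mul_inv_cancel])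
  have h7 : g = a⁻¹ * (a * g * a⁻¹) * a := by group
  rw [h7, h6]
  group

end Pool.Agent.helper34.FJ3
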