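import Pool.Agent.helper34.FJ3.Sd
import Pool.Agent.helper26.FJ3.SdSc
import Pool.Agent.helper74.FJ3.Sd2
import Pool.Agent.helper55.FJ3.SDc
import Pool.Agent.helper34.FJ3.Vary
import Pool.Agent.helper68.FJ3.Bary

set_option autoImplicit false

/-!
# Theorem P2 for arbitrary actions by isometric automorphisms
-/

namespace Pool.Agent.helper34.FJ3

open Pool.Agent.helper34.FJ2
open scoped BigOperators

variable {V : Type}

/-- the group acts by automorphisms which preserve the lengths of the edges -/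
structure ActsIso (G : Type) {V : Type} [Group G] [MulAction G V] (X : Complex2 V)
    (len : V → V → ℝ) : Prop where
  edge : ∀ (g : G) (a b : V), X.edge a b → X.edge (g • a) (g • b)
  tri : ∀ (g : G) (a b c : V), X.tri a b c → X.tri (g • a) (g • b) (g • c)
  len : ∀ (g : G) (a b : V), X.edge a b → len (g • a) (g • b) = len a b

theorem IsSimp.fin {X : Complex2 V} {s : Set V} (h : IsSimp X s) : s.Finite := by
  obtain ⟨t, rfl, -⟩ := Pool.Agent.helper68.FJ3.isSimp_card h
  exact t.finite_toSet

theorem IsSimp.nonempty {X : Complex2 V} {s : Set V} (h : IsSimp X s) : s.Nonempty := by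
  rcases h with ⟨a, rfl⟩ | ⟨a, b, -, rfl⟩ | ⟨a, b, c, -, rfl⟩
  · exact Set.singleton_nonempty a
  · exact Set.insert_nonempty _ _
  · exact Set.insert_nonempty _ _

section action

variable {G : Type} [Group G] [MulAction G V]

theorem IsSimp.smul {X : Complex2 V} {len : V → V → ℝ} (h : ActsIso G X len) {s : Set V}
    (hs : IsSimp X s) (g : G) : IsSimp X ((g • ·) '' s) := by
  rcases hs with ⟨a, rfl⟩ | ⟨a, b, hab, rfl⟩ | ⟨a, b, c, habc, rfl⟩
  · exact Or.inl ⟨g • a, by simp⟩
  · exact Or.inr (Or.inl ⟨g • a, g • b, h.edge g a b hab, by simp [Set.image_insert_eq]⟩)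
  · exact Or.inr (Or.inr ⟨g • a, g • b, g • c, h.tri g a b c habc, by simp [Set.image_insert_eq]⟩)

/-- the action on the set of simplices -/
@[reducible] def simpAct {X : Complex2 V} {len : V → V → ℝ} (h : ActsIso G X len) :
    MulAction G (Simp X) where
  smul g s := ⟨(g • ·) '' s.1, s.2.smul h g⟩
  one_smul s := by
    apply Subtype.ext
    change ((1 : G) • ·) '' s.1 = s.1
    simp
  mul_smul g k s := by
    apply Subtype.ext
    change ((g * k) • ·) '' s.1 = (g • ·) '' ((k • ·) '' s.1)
    rw [Set.image_image]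
    simp [mul_smul]

theorem ssub_smul {s t : Set V} (g : G) (h : s ⊂ t) : (g • ·) '' s ⊂ (g • ·) '' t :=
  ⟨Set.image_mono h.1, fun h2 => h.2 ((Set.image_subset_image_iff (MulAction.injective g)).1 h2)⟩

theorem SCmp.smul {X : Complex2 V} {s t s' t' : Simp X} (g : G) (h : SCmp s t)
    (hs : s'.1 = (g • ·) '' s.1) (ht : t'.1 = (g • ·) '' t.1) : SCmp s' t' := by
  rw [SCmp, hs, ht]
  exact h.imp (ssub_smul g) (ssub_smul g)

/-- One barycentric subdivision. -/
theorem sd_step (X : Complex2 V) (len : V → V → ℝ) (hs : SimplyConnected X) (hn : NPC X len)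
    (ha : ActsIso G X len) : ∃ (V' : Type) (_ : MulAction G V') (X' : Complex2 V')
      (len' : V' → V' → ℝ) (σ : V' → Set V), SimplyConnected X' ∧ NPC X' len' ∧
      ActsIso G X' len' ∧ (∀ v, IsSimp X (σ v)) ∧ (∀ (g : G) v, σ (g • v) = (g • ·) '' σ v) ∧
      Function.Injective σ ∧ (∀ a b, X'.edge a b → σ a ⊂ σ b ∨ σ b ⊂ σ a) := by
  let _ := simpAct ha
  refine ⟨Simp X, simpAct ha, sd X, sdLen len, fun s => s.1, sd_sc X hs, Pool.Agent.helper74.FJ3.sd_npc X len hn, ?_,
    fun s => s.2, fun g s => rfl, Subtype.val_injective, fun a b h => h⟩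
  refine ⟨fun g s t hst => hst.smul g rfl rfl, fun g r s t hr => ?_, fun g s t hst => ?_⟩
  · exact ⟨hr.1.smul g rfl rfl, hr.2.1.smul g rfl rfl, hr.2.2.smul g rfl rfl⟩
  · exact Pool.Agent.helper55.FJ3.sdLen_inv X len (MulAction.toPerm g) hn.symm (ha.len g) s t _ _ hst rfl rfl

end action

/-- a second subdivision makes the complex typed -/
theorem typed_of (X : Complex2 V) {V' K : Type} (X' : Complex2 V') (κ : V → K)
    (hκ : ∀ a b, X.edge a b → κ a ≠ κ b) (σ : V' → Set V) (hσ : ∀ v, IsSimp X (σ v))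
    (hinj : Function.Injective σ) (he : ∀ a b, X'.edge a b → σ a ⊂ σ b ∨ σ b ⊂ σ a) :
    Typed X' fun v => κ '' σ v := by
  have key : ∀ v, Set.InjOn κ (σ v) := by
    intro v
    rcases hσ v with ⟨a, h⟩ | ⟨a, b, hab, h⟩ | ⟨a, b, c, habc, h⟩
    · rw [h]
      exact Set.injOn_singleton _ _
    · rw [h]
      have h1 := hκ _ _ hab
      rintro x (rfl | rfl) y (rfl | rfl) hxy
      · rfl
      · exact absurd hxy h1
      · exact absurd hxy.symm h1
      · rfl
    · rw [h]
      have h1 := hκ _ _ (X.tri_edge _ _ _ habc)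
      have h2 := hκ _ _ (X.tri_edge' habc)
      have h3 := hκ _ _ (X.tri_edge'' habc)
      rintro x (rfl | rfl | rfl) y (rfl | rfl | rfl) hxy
      · rfl
      · exact absurd hxy h1
      · exact absurd hxy h3
      · exact absurd hxy.symm h1
      · rfl
      · exact absurd hxy h2
      · exact absurd hxy.symm h3
      · exact absurd hxy.symm h2
      · rfl
  have sub : ∀ a b, σ a ⊂ σ b → κ '' σ a ≠ κ '' σ b := by
    intro a b hab h
    apply hab.2
    intro x hx
    have h1 : κ x ∈ κ '' σ a := by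
      rw [h]
      exact ⟨x, hx, rfl⟩
    obtain ⟨y, hy, hyx⟩ := h1
    rwa [← key b (hab.1 hy) hx hyx]
  have uniq : ∀ a b, σ a ⊂ σ b → ∀ c, X'.edge b c → κ '' σ c = κ '' σ a → c = a := by
    intro a b hab c hbc hca
    have hcb : σ c ⊂ σ b := by
      rcases he _ _ hbc with h | h
      · exfalso
        have h1 : κ '' σ b ⊆ κ '' σ a := by
          rw [← hca]
          exact Set.image_mono h.1
        exact sub _ _ hab (Set.Subset.antisymm (Set.image_mono hab.1) h1)
      · exact h
    apply hinj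
    ext x
    constructor
    · intro hx
      have h1 : κ x ∈ κ '' σ a := by
        rw [← hca]
        exact ⟨x, hx, rfl⟩
      obtain ⟨y, hy, hyx⟩ := h1
      rwa [← key b (hab.1 hy) (hcb.1 hx) hyx]
    · intro hx
      have h1 : κ x ∈ κ '' σ c := by
        rw [hca]
        exact ⟨x, hx, rfl⟩
      obtain ⟨y, hy, hyx⟩ := h1
      rwa [← key b (hcb.1 hy) (hab.1 hx) hyx]
  refine ⟨fun a b hab => ?_, fun a b hab => ?_⟩
  · rcases he _ _ hab with h | h
    · exact sub _ _ h
    · exact (sub _ _ h).symm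
  · rcases he _ _ hab with h | h
    · exact Or.inr (uniq _ _ h)
    · exact Or.inl (uniq _ _ h)

/-- **Theorem P2** for arbitrary actions by isometric automorphisms, with a homomorphism for each
simplex. -/
theorem P2s {P : ∀ (G : Type) [Group G], Prop} (hP : Closed P) {G V : Type} [Group G]
    [MulAction G V] (X : Complex2 V) (len : V → V → ℝ) (hs : SimplyConnected X) (hn : NPC X len)
    (ha : ActsIso G X len)
    (hπ : ∀ s : Set V, IsSimp X s → ∃ (Q : Type) (_ : Group Q) (π : G →* Q), P Q ∧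
      ∀ g : G, (g • ·) '' s = s → π g = 1 → g = 1) : P G := by
  obtain ⟨V', _, X', len', σ, hs', hn', ha', h1, h2, h3, h4⟩ := sd_step X len hs hn ha
  obtain ⟨V'', _, X'', len'', σ', hs'', hn'', ha'', h1', h2', h3', h4'⟩ :=
    sd_step X' len' hs' hn' ha'
  let κ : V' → ℕ := fun v => (σ v).ncard
  have hκ : ∀ a b, X'.edge a b → κ a ≠ κ b := by
    intro a b hab
    rcases h4 _ _ hab with h | h
    · exact (Set.ncard_lt_ncard h (h1 b).fin).ne
    · exact (Set.ncard_lt_ncard h (h1 a).fin).ne'
  have hκg : ∀ (g : G) v, κ (g • v) = κ v := by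
    intro g v
    change (σ (g • v)).ncard = (σ v).ncard
    rw [h2, Set.ncard_image_of_injective _ (MulAction.injective g)]
  refine P2v hP X'' len'' (fun v => κ '' σ' v) hs'' hn'' (typed_of X' X'' κ hκ σ' h1' h3' h4')
    ⟨ha''.edge, ha''.tri, ha''.len, ?_⟩ ?_
  · intro g v
    rw [h2', Set.image_image]
    exact Set.image_congr fun x _ => hκg g x
  · intro v
    obtain ⟨w, hw⟩ := (h1' v).nonempty
    obtain ⟨Q, _, π, hQ, h5⟩ := hπ (σ w) (h1 w)
    refine ⟨Q, inferInstance, π, hQ, fun g hg hg' => h5 g ?_ hg'⟩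
    have h6 : g • w ∈ σ' v := by
      rw [← hg, h2']
      exact ⟨w, hw, rfl⟩
    have key : ∀ a ∈ σ' v, ∀ b ∈ σ' v, κ a = κ b → a = b := by
      intro a ha b hb hab
      by_contra hne
      have h7 : X'.edge a b ∨ a = b := by
        rcases h1' v with ⟨c, h⟩ | ⟨c, d, hcd, h⟩ | ⟨c, d, e, hcde, h⟩
        · rw [h] at ha hb
          exact Or.inr (ha.trans hb.symm)
        · rw [h] at ha hb
          have h8 := X'.edge_symm _ _ hcd
          rcases ha with rfl | rfl <;> rcases hb with rfl | rfl <;> simp_all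
        · rw [h] at ha hb
          have e1 := X'.tri_edge _ _ _ hcde
          have e2 := X'.tri_edge' hcde
          have e3 := X'.tri_edge'' hcde
          have e1' := X'.edge_symm _ _ e1
          have e2' := X'.edge_symm _ _ e2
          have e3' := X'.edge_symm _ _ e3
          rcases ha with rfl | rfl | rfl <;> rcases hb with rfl | rfl | rfl <;> simp_all
      rcases h7 with h7 | h7
      · exact hκ _ _ h7 hab
      · exact hne h7
    have h8 : g • w = w := key _ h6 _ hw (hκg g w)
    rw [← h2, h8]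

end Pool.Agent.helper34.FJ3
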